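import Pool.Agent.Helper93.IA.StC

set_option autoImplicit false

namespace Pool.Agent.Helper51.IAC

open Pool.Agent.Helper93.IA

theorem hNM2 : StNM2 := by
  intro ξ ρ hξ _hξ1 hρ hρξ
  have hc : 0 < ρ * ξ / 1000 := by positivity
  refine ⟨⌈12 / (ρ * ξ / 1000) ^ 3⌉₊ + 1, ?_⟩
  intro n m b R D μ hn hm hμ hR hb hD
  have hn0 : 12 / (ρ * ξ / 1000) ^ 3 < (n : ℝ) := by
    have h1 : 12 / (ρ * ξ / 1000) ^ 3 ≤ ((⌈12 / (ρ * ξ / 1000) ^ 3⌉₊ : ℕ) : ℝ) := Nat.le_ceil _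
    have h2 : ((⌈12 / (ρ * ξ / 1000) ^ 3⌉₊ + 1 : ℕ) : ℝ) ≤ (n : ℝ) := by exact_mod_cast hn
    push_cast at h2
    linarith
  have hnpos : 0 < (n : ℝ) := lt_trans (by positivity) hn0
  have hmpos : 0 < (m : ℝ) := lt_of_lt_of_le (by positivity) hm
  have hRpos : 0 < (R : ℝ) := lt_of_lt_of_le (by positivity) hR
  -- the quotient
  have hq : (μ : ℝ) / R ≤ 90 * ρ := by
    rw [div_le_iff₀ hRpos]
    have h1 : 90 * ρ * (ρ * m / 30) ≤ 90 * ρ * R :=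
      mul_le_mul_of_nonneg_left hR (by positivity)
    nlinarith [h1, hμ]
  have hq0 : 0 ≤ (μ : ℝ) / R := by positivity
  -- the power
  have hpow : (1 + (μ : ℝ) / R) ^ D ≤ Real.exp (180 * ρ ^ 2 * n) := by
    have h1 : 1 + (μ : ℝ) / R ≤ Real.exp ((μ : ℝ) / R) := by
      have := Real.add_one_le_exp ((μ : ℝ) / R)
      linarith
    have h2 : (1 + (μ : ℝ) / R) ^ D ≤ Real.exp ((μ : ℝ) / R) ^ D :=
      pow_le_pow_left₀ (by positivity) h1 D
    rw [← Real.exp_nat_mul] at h2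
    refine h2.trans (Real.exp_le_exp.mpr ?_)
    have h3 : (D : ℝ) * ((μ : ℝ) / R) ≤ (2 * ρ * n) * (90 * ρ) :=
      mul_le_mul hD hq hq0 (by positivity)
    nlinarith [h3]
  have hexp1 : 180 * ρ ^ 2 * n ≤ 18 / 10000 * (ρ * ξ * n) := by
    have h1 : ρ * (ρ * n) ≤ ξ / 100000 * (ρ * n) :=
      mul_le_mul_of_nonneg_right hρξ (by positivity)
    nlinarith [h1]
  -- the power of two
  have hb1 : ρ * ξ * n / 60 ≤ (b : ℝ) := by
    have h1 : ρ * (ξ * n / 2) ≤ ρ * m := mul_le_mul_of_nonneg_left hm hρ.le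
    linarith [hb, h1]
  have htwo : Real.exp (ρ * ξ * n / 100) ≤ (2 : ℝ) ^ b := by
    have hlog : (2 : ℝ) ^ b = Real.exp ((b : ℝ) * Real.log 2) := by
      rw [Real.exp_nat_mul, Real.exp_log (by norm_num)]
    rw [hlog]
    refine Real.exp_le_exp.mpr ?_
    have h2 : (0.6 : ℝ) ≤ Real.log 2 := by
      have := Real.log_two_gt_d9
      linarith
    have h3 : ρ * ξ * n / 60 * 0.6 ≤ (b : ℝ) * Real.log 2 :=
      mul_le_mul hb1 h2 (by norm_num) (by positivity)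
    linarith [h3]
  -- the square
  have hsq : (n : ℝ) * (2 * n) < Real.exp (ρ * ξ * n / 1000) := by
    have h1 : (ρ * ξ * n / 1000) ^ 3 / (Nat.factorial 3 : ℝ) ≤ Real.exp (ρ * ξ * n / 1000) :=
      Real.pow_div_factorial_le_exp _ (by positivity) 3
    refine lt_of_lt_of_le ?_ h1
    have h2 : (Nat.factorial 3 : ℝ) = 6 := by norm_num [Nat.factorial]
    rw [h2, lt_div_iff₀ (by norm_num : (0 : ℝ) < 6)]
    have h3 : 12 < (n : ℝ) * (ρ * ξ / 1000) ^ 3 := by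
      rwa [div_lt_iff₀ (by positivity)] at hn0
    have h4 : (ρ * ξ * n / 1000) ^ 3 = (n : ℝ) ^ 2 * ((n : ℝ) * (ρ * ξ / 1000) ^ 3) := by ring
    rw [h4]
    have h5 : (n : ℝ) ^ 2 * 12 < (n : ℝ) ^ 2 * ((n : ℝ) * (ρ * ξ / 1000) ^ 3) :=
      mul_lt_mul_of_pos_left h3 (by positivity)
    nlinarith [h5]
  -- conclusion
  calc (n : ℝ) * (2 * n) * (1 + (μ : ℝ) / R) ^ D
      ≤ (n : ℝ) * (2 * n) * Real.exp (180 * ρ ^ 2 * n) :=
        mul_le_mul_of_nonneg_left hpow (by positivity)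
    _ < Real.exp (ρ * ξ * n / 1000) * Real.exp (180 * ρ ^ 2 * n) :=
        mul_lt_mul_of_pos_right hsq (Real.exp_pos _)
    _ = Real.exp (ρ * ξ * n / 1000 + 180 * ρ ^ 2 * n) := by rw [Real.exp_add]
    _ ≤ Real.exp (ρ * ξ * n / 100) := by
        refine Real.exp_le_exp.mpr ?_
        have h0 : 0 ≤ ρ * ξ * n := by positivity
        linarith [hexp1]
    _ ≤ 2 ^ b := htwo

end Pool.Agent.Helper51.IAC
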